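import Pool.Agent.H71.Cjc2

set_option autoImplicit false

namespace Pool.Agent.Results.MP_b1aa48_co.NotClosed

/-- Semidistributive: join-semidistributive and meet-semidistributive. -/
def SD (L : Type) [Lattice L] : Prop :=
  (∀ x y z : L, x ⊔ y = x ⊔ z → x ⊔ (y ⊓ z) = x ⊔ y) ∧
    (∀ x y z : L, x ⊓ y = x ⊓ z → x ⊓ (y ⊔ z) = x ⊓ y)

/-- `A` is the canonical join representation of `w`: an irredundant join representation of `w`
that refines every join representation of `w`. -/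
def IsCJR {L : Type} [Lattice L] (A : Set L) (w : L) : Prop :=
  IsLUB A w ∧ (∀ B, B ⊂ A → ¬ IsLUB B w) ∧ ∀ B, IsLUB B w → ∀ a ∈ A, ∃ b ∈ B, a ≤ b

/-- `A` is a face of the canonical join complex. -/
def Face {L : Type} [Lattice L] (A : Set L) : Prop := ∃ w, IsCJR A w

theorem result : ∃ (L : Type) (_ : Lattice L) (_ : Finite L), SD L ∧
    ∃ W : Set L, (∀ j ∈ W, SupIrred j) ∧
      ∀ (L' : Type) (_ : Lattice L') (_ : Finite L'), SD L' →
        ¬ ∃ e : {j : L' // SupIrred j} ≃ W, ∀ A : Set {j : L' // SupIrred j},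
          Face (Subtype.val '' A) ↔ Face (Subtype.val '' (e '' A)) := by
  obtain ⟨L, i1, i2, h1, h2, W, h3, h4⟩ := H71.Cjc.main
  exact ⟨L, i1, i2, ⟨h1, h2⟩, W, h3, fun L' j1 j2 h => h4 L' j1 j2 h.1 h.2⟩

end Pool.Agent.Results.MP_b1aa48_co.NotClosed
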